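import Mathlib

namespace Pool.Agent.H.MP_3e8e5c_co

def Irr {n : ℕ} (H : SimpleGraph (Fin n)) (T : Finset (Fin n)) : Prop :=
  ∀ v ∈ T, ∃ w : Fin n, (w = v ∨ H.Adj v w) ∧ ∀ u ∈ T, u ≠ v → ¬ (w = u ∨ H.Adj u w)

theorem Irr.mono {n : ℕ} {H : SimpleGraph (Fin n)} {S T : Finset (Fin n)} (h : Irr H T)
    (hs : S ⊆ T) : Irr H S := by
  intro v hv
  obtain ⟨w, h1, h2⟩ := h v (hs hv)
  exact ⟨w, h1, fun u hu => h2 u (hs hu)⟩

def un (N : ℕ → ℕ) (L : List ℕ) (v : ℕ) : ℕ :=
  List.rec (motive := fun _ => ℕ) 0 (fun u _ acc => cond (Nat.beq u v) acc (N u ||| acc)) L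

theorem un_spec (N : ℕ → ℕ) (L : List ℕ) (v w : ℕ) :
    (un N L v).testBit w = true ↔ ∃ u ∈ L, u ≠ v ∧ (N u).testBit w = true := by
  induction L with
  | nil => simp [un]
  | cons u L ih =>
    show (cond (Nat.beq u v) (un N L v) (N u ||| un N L v)).testBit w = true ↔ _
    cases h : Nat.beq u v
    · have : u ≠ v := Nat.ne_of_beq_eq_false h
      rw [cond_false, Nat.testBit_or, Bool.or_eq_true, ih]
      simp [this]
    · have : u = v := Nat.eq_of_beq_eq_true h
      rw [cond_true, ih]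
      simp [this]

def allL (L : List ℕ) (f : ℕ → Bool) : Bool :=
  List.rec (motive := fun _ => Bool) true (fun u _ acc => cond (f u) acc false) L

theorem allL_spec (L : List ℕ) (f : ℕ → Bool) : allL L f = true ↔ ∀ u ∈ L, f u = true := by
  induction L with
  | nil => simp [allL]
  | cons u L ih =>
    show cond (f u) (allL L f) false = true ↔ _
    cases h : f u <;> simp [h, ih]

def allN (n : ℕ) (f : ℕ → Bool) : Bool :=
  Nat.rec (motive := fun _ => Bool) true (fun u acc => cond (f u) acc false) n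

theorem allN_spec (n : ℕ) (f : ℕ → Bool) : allN n f = true ↔ ∀ u < n, f u = true := by
  induction n with
  | zero => simp [allN]
  | succ n ih =>
    show cond (f n) (allN n f) false = true ↔ _
    rw [Nat.forall_lt_succ_right]
    cases h : f n <;> simp [ih]

def irrM (N : ℕ → ℕ) (L : List ℕ) : Bool :=
  allL L fun v => !(Nat.beq (N v ||| un N L v) (un N L v))

theorem or_ne (a b : ℕ) : (!(Nat.beq (a ||| b) b)) = true ↔
    ∃ w, a.testBit w = true ∧ ¬ b.testBit w = true := by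
  constructor
  · intro h
    by_contra hc
    push Not at hc
    have : a ||| b = b := by
      apply Nat.eq_of_testBit_eq
      intro i
      rw [Nat.testBit_or]
      cases ha : a.testBit i
      · simp
      · simp [hc i ha]
    rw [this] at h
    simp at h
  · rintro ⟨w, h1, h2⟩
    cases h : Nat.beq (a ||| b) b
    · rfl
    · have e : a ||| b = b := Nat.eq_of_beq_eq_true h
      apply absurd _ h2
      rw [← e, Nat.testBit_or, h1]; rfl

theorem irr_iff {n : ℕ} (H : SimpleGraph (Fin n)) (N : ℕ → ℕ)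
    (hb : ∀ v < n, N v < 2 ^ n)
    (hN : ∀ u w : Fin n, (w = u ∨ H.Adj u w) ↔ (N u).testBit w = true)
    (L : List ℕ) (hL : ∀ u ∈ L, u < n) (T : Finset (Fin n)) (hT : ∀ u : Fin n, u ∈ T ↔ u.1 ∈ L) :
    Irr H T ↔ irrM N L = true := by
  unfold irrM
  rw [allL_spec]
  constructor
  · intro h v hv
    obtain ⟨w, h1, h2⟩ := h ⟨v, hL v hv⟩ ((hT _).2 hv)
    rw [or_ne]
    refine ⟨w, (hN _ _).1 h1, ?_⟩
    rw [un_spec]
    rintro ⟨u, hu, huv, hw⟩
    exact h2 ⟨u, hL u hu⟩ ((hT _).2 hu) (fun e => huv (congrArg Fin.val e)) ((hN _ _).2 hw)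
  · intro h v hv
    have h1 := h v ((hT _).1 hv)
    rw [or_ne] at h1
    obtain ⟨w, h1, h2⟩ := h1
    have hw : w < n := by
      by_contra hw
      have : (N v).testBit w = false := Nat.testBit_lt_two_pow
        (lt_of_lt_of_le (hb v v.2) (Nat.pow_le_pow_right (by norm_num) (by omega)))
      rw [this] at h1; simp at h1
    refine ⟨⟨w, hw⟩, (hN _ _).2 h1, fun u hu huv h3 => h2 ?_⟩
    rw [un_spec]
    exact ⟨u, (hT _).1 hu, fun e => huv (Fin.ext e), (hN _ _).1 h3⟩

/-- no one-vertex extension is irredundant -/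
def noExt (n : ℕ) (N : ℕ → ℕ) (L : List ℕ) : Bool :=
  allN n fun v => cond (allL L fun u => !(Nat.beq u v)) (!(irrM N (v :: L))) true

theorem max_iff {n : ℕ} (H : SimpleGraph (Fin n)) (N : ℕ → ℕ)
    (hb : ∀ v < n, N v < 2 ^ n)
    (hN : ∀ u w : Fin n, (w = u ∨ H.Adj u w) ↔ (N u).testBit w = true)
    (L : List ℕ) (hL : ∀ u ∈ L, u < n) (T : Finset (Fin n)) (hT : ∀ u : Fin n, u ∈ T ↔ u.1 ∈ L) :
    Maximal (Irr H) T ↔ (cond (irrM N L) (noExt n N L) false) = true := by
  have key : ∀ v : Fin n, Irr H (insert v T) ↔ irrM N (v.1 :: L) = true := fun v =>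
    irr_iff H N hb hN _ (by
      intro u hu
      rcases List.mem_cons.1 hu with rfl | hu
      · exact v.2
      · exact hL u hu) _ (by
      intro u
      rw [Finset.mem_insert, List.mem_cons, hT, Fin.ext_iff])
  have hnot : ∀ v : Fin n, (allL L fun u => !(Nat.beq u v)) = true ↔ v ∉ T := by
    intro v
    rw [allL_spec, hT]
    constructor
    · intro h hv
      have := h _ hv
      simp at this
    · intro h u hu
      cases e : Nat.beq u v
      · rfl
      · exact absurd (Nat.eq_of_beq_eq_true e ▸ hu) h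
  constructor
  · intro h
    rw [(irr_iff H N hb hN L hL T hT).1 h.1, cond_true]
    unfold noExt
    rw [allN_spec]
    intro v hv
    cases e : (allL L fun u => !(Nat.beq u v))
    · rfl
    · rw [cond_true]
      cases e2 : irrM N (v :: L)
      · rfl
      · exact absurd (h.2 ((key ⟨v, hv⟩).2 e2) (Finset.subset_insert _ _)
          (Finset.mem_insert_self _ _)) ((hnot ⟨v, hv⟩).1 e)
  · intro h
    cases e : irrM N L
    · rw [e] at h; simp at h
    · rw [e, cond_true] at h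
      refine ⟨(irr_iff H N hb hN L hL T hT).2 e, fun U hU hTU v hv => ?_⟩
      by_contra hvT
      unfold noExt at h
      rw [allN_spec] at h
      have h1 := h v v.2
      rw [(hnot v).2 hvT, cond_true,
        (key v).1 (hU.mono (Finset.insert_subset hv hTU))] at h1
      simp at h1

def M : ℕ := 0x10ed7e2008f6be10047b7f0002bdbe8001dafe401bb24a801d5d24401eaa92200fd16810176c95001a4e7a400da73c2016539e100b29ef001594f6801f56e0201f2f50101f9789001f4bc4801fa5c240040889000280448001440240102220200811101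

def N0 (v : ℕ) : ℕ := (M >>> (32 * v)) % 33554432

def Nd (a b u : ℕ) : ℕ :=
  cond (Nat.beq u a) (N0 u ^^^ 2 ^ b) (cond (Nat.beq u b) (N0 u ^^^ 2 ^ a) (N0 u))

def mx (N : ℕ → ℕ) (L : List ℕ) : Bool := cond (irrM N L) (noExt 25 N L) false

theorem low : allN 25 (fun d => allN (d + 1) fun c => allN (c + 1) fun b => allN (b + 1) fun a =>
    !(mx N0 [a, b, c, d])) = true := by decide +kernel

def Wit : List (ℕ × ℕ × ℕ × ℕ × ℕ × ℕ) := [(0,8,2,6,13,19), (0,12,7,8,11,12), (0,16,9,13,18,19), (0,23,9,13,15,23), (1,9,3,7,14,15), (1,13,8,9,12,13), (1,17,5,14,15,19), (1,24,5,14,16,24), (2,5,4,8,10,16), (2,14,5,9,13,14), (2,18,6,10,15,16), (2,20,6,10,17,20), (3,6,0,9,11,17), (3,10,5,6,10,14), (3,19,7,11,16,17), (3,21,7,11,18,21), (4,7,1,5,12,18), (4,11,6,7,10,11), (4,15,8,12,17,18), (4,22,8,12,19,22), (5,10,1,5,12,18), (5,11,7,11,13,15), (5,12,5,6,10,14), (5,14,5,9,13,14), (5,17,5,9,12,14), (5,19,6,16,18,19), (5,20,5,12,14,16), (5,21,1,7,15,21),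 (5,22,3,5,12,23), (5,23,8,9,12,23), (5,24,2,5,10,21), (6,10,5,6,10,14), (6,11,2,6,13,19), (6,12,8,12,14,16), (6,13,6,7,10,11), (6,15,7,15,17,19), (6,18,5,6,10,13), (6,20,3,6,11,22), (6,21,6,10,13,17), (6,22,0,6,13,24), (6,23,4,6,13,24), (6,24,5,9,13,24), (7,11,6,7,10,11), (7,12,3,7,14,15), (7,13,9,10,13,17), (7,14,5,10,14,15), (7,16,8,15,16,18), (7,19,6,7,11,14), (7,20,5,6,14,20), (7,21,4,7,12,23), (7,22,7,11,14,18), (7,23,1,7,14,20), (7,24,0,7,14,20), (8,10,6,10,11,16), (8,12,7,8,11,12), (8,13,4,8,10,16), (8,14,5,11,14,18), (8,15,7,8,10,12), (8,17,9,16,17,19), (8,20,1,8,10,21), (8,21,6,7,10,21), (8,22,0,8,13,24), (8,23,8,10,12,19), (8,24,2,8,10,21), (9,10,6,10,12,19), (9,11,5,9,13,14), (9,13,8,9,12,13), (9,14,0,9,11,17), (9,16,8,9,11,13), (9,18,5,15,17,18), (9,20,0,6,19,20), (9,21,2,5,10,21), (9,22,7,8,11,22), (9,23,1,9,14,20), (9,24,9,11,13,15), (10,11,7,8,11,12), (10,14,6,7,10,11), (10,16,6,7,10,11), (10,19,6,7,10,11), (10,20,5,13,15,20),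 (10,22,0,10,11,19), (10,24,8,12,18,24), (11,12,8,9,12,13), (11,15,7,8,11,12), (11,17,5,7,11,14), (11,20,9,13,19,20), (11,21,5,18,19,21), (11,23,1,11,12,15), (12,13,5,9,13,14), (12,16,5,12,14,16), (12,18,6,8,10,12), (12,21,5,14,15,21), (12,22,6,15,19,22), (12,24,2,12,13,16), (13,14,5,6,10,14), (13,17,5,9,13,14), (13,19,5,9,13,14), (13,20,0,14,15,20), (13,22,6,10,16,22), (13,23,5,19,21,23), (14,15,5,6,10,14), (14,18,5,6,10,14), (14,21,1,10,16,21), (14,23,7,11,17,23), (14,24,6,15,22,24), (15,17,5,7,14,15), (15,18,5,8,12,18), (15,20,1,12,15,22), (15,21,5,13,15,20), (15,22,10,11,15,19), (15,24,0,14,15,20), (16,18,6,8,10,16), (16,19,5,14,15,16), (16,20,1,10,16,21), (16,21,2,13,16,23), (16,22,6,14,16,21), (16,23,11,12,15,16), (17,19,7,9,11,17), (17,21,2,11,17,22), (17,22,3,14,17,24), (17,23,7,10,17,22), (17,24,12,13,16,17), (18,20,13,14,17,18), (18,22,3,12,18,23), (18,23,4,10,18,20), (18,24,8,11,18,23), (19,20,9,12,19,24), (19,21,10,14,18,19),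 (19,23,4,13,19,24), (19,24,0,11,19,21)]

theorem up : Wit.all (fun w => mx (Nd w.1 w.2.1) [w.2.2.1, w.2.2.2.1, w.2.2.2.2.1, w.2.2.2.2.2] &&
    decide (w.2.2.1 < 25) && decide (w.2.2.2.1 < 25) && decide (w.2.2.2.2.1 < 25) &&
    decide (w.2.2.2.2.2 < 25)) = true := by decide +kernel

theorem cover : allN 25 (fun b => allN b fun a => !((N0 a).testBit b) ||
    Wit.any fun w => Nat.beq w.1 a && Nat.beq w.2.1 b) = true := by decide +kernel

theorem symm0 : allN 25 (fun b => allN 25 fun a =>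
    ((N0 a).testBit b == (N0 b).testBit a) && (N0 a).testBit a) = true := by decide +kernel

end Pool.Agent.H.MP_3e8e5c_co
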