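import Pool.Agent.H.MP_3e8e5c_co.A

namespace Pool.Agent.H.MP_3e8e5c_co

theorem symm1 (a b : Fin 25) : (N0 a).testBit b = (N0 b).testBit a ∧ (N0 a).testBit a = true := by
  have h := (allN_spec _ _).1 ((allN_spec _ _).1 symm0 b b.2) a a.2
  simpa using h

def G : SimpleGraph (Fin 25) where
  Adj u v := u ≠ v ∧ (N0 u).testBit v = true
  symm := ⟨fun u v h => ⟨h.1.symm, by rw [(symm1 v u).1]; exact h.2⟩⟩
  loopless := ⟨fun u h => h.1 rfl⟩

theorem N0_lt (v : ℕ) : N0 v < 2 ^ 25 := Nat.mod_lt _ (by norm_num)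

theorem hN0 (u w : Fin 25) : (w = u ∨ G.Adj u w) ↔ (N0 u).testBit w = true := by
  constructor
  · rintro (rfl | h)
    · exact (symm1 w w).2
    · exact h.2
  · intro h
    by_cases e : w = u
    · exact Or.inl e
    · exact Or.inr ⟨fun e' => e e'.symm, h⟩

theorem Nd_lt (a b : Fin 25) (v : ℕ) : Nd a b v < 2 ^ 25 := by
  unfold Nd
  cases Nat.beq v a
  · cases Nat.beq v b
    · exact N0_lt v
    · exact Nat.xor_lt_two_pow (N0_lt v) (Nat.pow_lt_pow_right (by norm_num) a.2)
  · exact Nat.xor_lt_two_pow (N0_lt v) (Nat.pow_lt_pow_right (by norm_num) b.2)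

theorem hNd (a b : Fin 25) (hab : G.Adj a b) (u w : Fin 25) :
    (w = u ∨ (G.deleteEdges {s(a, b)}).Adj u w) ↔ (Nd a b u).testBit w = true := by
  have hne : a ≠ b := hab.1
  rw [SimpleGraph.deleteEdges_adj, Set.mem_singleton_iff, Sym2.eq_iff]
  unfold Nd
  cases h1 : Nat.beq u a
  · have hua : u ≠ a := fun e => Nat.ne_of_beq_eq_false h1 (congrArg Fin.val e)
    cases h2 : Nat.beq u b
    · have hub : u ≠ b := fun e => Nat.ne_of_beq_eq_false h2 (congrArg Fin.val e)
      rw [cond_false, cond_false, ← hN0]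
      simp [hua, hub]
    · have hub : u = b := Fin.ext (Nat.eq_of_beq_eq_true h2)
      subst hub
      rw [cond_false, cond_true, Nat.testBit_xor, Nat.testBit_two_pow]
      by_cases hw : w = a
      · subst hw
        have := (hN0 u w).1 (Or.inr hab.symm)
        simp [this, hne]
      · have h3 : ¬ (a : ℕ) = w := fun e => hw (Fin.ext e.symm)
        simp only [h3, decide_false, Bool.xor_false, ← hN0]
        simp [hua, hw]
  · have hua : u = a := Fin.ext (Nat.eq_of_beq_eq_true h1)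
    subst hua
    rw [cond_true, Nat.testBit_xor, Nat.testBit_two_pow]
    by_cases hw : w = b
    · subst hw
      have := (hN0 u w).1 (Or.inr hab)
      simp [this, hne.symm]
    · have h3 : ¬ (b : ℕ) = w := fun e => hw (Fin.ext e.symm)
      simp only [h3, decide_false, Bool.xor_false, ← hN0]
      simp [hne, hw]

theorem upper (a b : Fin 25) (hab : G.Adj a b) (hlt : a < b) :
    ∃ S : Finset (Fin 25), Maximal (Irr (G.deleteEdges {s(a, b)})) S ∧ S.card ≤ 4 := by
  have h := (allN_spec _ _).1 ((allN_spec _ _).1 cover b b.2) a hlt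
  rw [hab.2] at h
  simp only [Bool.not_true, Bool.false_or, List.any_eq_true, Bool.and_eq_true] at h
  obtain ⟨⟨w1, w2, p, q, r, t⟩, hw, h1, h2⟩ := h
  have e1 : w1 = a := Nat.eq_of_beq_eq_true h1
  have e2 : w2 = b := Nat.eq_of_beq_eq_true h2
  have h3 := List.all_eq_true.1 up _ hw
  simp only [Bool.and_eq_true, decide_eq_true_eq] at h3
  obtain ⟨⟨⟨⟨h4, hp⟩, hq⟩, hr⟩, ht⟩ := h3
  subst e1 e2
  refine ⟨{⟨p, hp⟩, ⟨q, hq⟩, ⟨r, hr⟩, ⟨t, ht⟩}, ?_, Finset.card_le_four⟩
  refine (max_iff _ (Nd a b) (fun v _ => Nd_lt a b v) (hNd a b hab) [p, q, r, t] ?_ _ ?_).2 h4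
  · intro u hu
    simp only [List.mem_cons, List.not_mem_nil, or_false] at hu
    rcases hu with rfl | rfl | rfl | rfl <;> assumption
  · intro u
    simp [Fin.ext_iff]

theorem notmax (a b c d : Fin 25) (h1 : a ≤ b) (h2 : b ≤ c) (h3 : c ≤ d) (T : Finset (Fin 25))
    (hT : ∀ u, u ∈ T ↔ u = a ∨ u = b ∨ u = c ∨ u = d) : ¬ Maximal (Irr G) T := by
  intro h
  have h4 := (allN_spec _ _).1 ((allN_spec _ _).1 ((allN_spec _ _).1 ((allN_spec _ _).1 low d d.2)
    c (Nat.lt_succ_of_le h3)) b (Nat.lt_succ_of_le h2)) a (Nat.lt_succ_of_le h1)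
  have h5 := (max_iff G N0 (fun v _ => N0_lt v) hN0 [a, b, c, d] (by
    intro u hu
    simp only [List.mem_cons, List.not_mem_nil, or_false] at hu
    rcases hu with rfl | rfl | rfl | rfl
    exacts [a.2, b.2, c.2, d.2]) T (by
    intro u
    rw [hT]; simp [Fin.ext_iff])).1 h
  unfold mx at h4
  rw [h5] at h4
  simp at h4

theorem lower (T : Finset (Fin 25)) (h : Maximal (Irr G) T) : 5 ≤ T.card := by
  by_contra hc
  have hlen : (T.sort (· ≤ ·)).length ≤ 4 := by rw [Finset.length_sort]; omega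
  have hs : (T.sort (· ≤ ·)).Pairwise (· ≤ ·) := Finset.pairwise_sort _ _
  have hm : ∀ u, u ∈ T ↔ u ∈ T.sort (· ≤ ·) := fun u => (Finset.mem_sort _).symm
  generalize T.sort (· ≤ ·) = l at hlen hs hm
  match l, hlen, hs, hm with
  | [], _, _, hm =>
    have hT : T = ∅ := by ext u; simp [hm]
    subst hT
    have : Irr G {0} := by
      intro v hv
      refine ⟨v, Or.inl rfl, fun u hu huv => ?_⟩
      rw [Finset.mem_singleton] at hu hv
      exact absurd (hu.trans hv.symm) huv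
    have := h.2 this (Finset.empty_subset _) (Finset.mem_singleton_self _)
    simp at this
  | [a], _, _, hm => exact notmax a a a a le_rfl le_rfl le_rfl T (by simp [hm]) h
  | [a, b], _, hs, hm =>
    simp at hs
    exact notmax a b b b hs le_rfl le_rfl T (by simp [hm]) h
  | [a, b, c], _, hs, hm =>
    simp at hs
    exact notmax a b c c hs.1.1 hs.2 le_rfl T (by simp [hm]) h
  | [a, b, c, d], _, hs, hm =>
    simp at hs
    exact notmax a b c d hs.1.1 hs.2.1.1 hs.2.2 T (by simp [hm]) h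
  | _ :: _ :: _ :: _ :: _ :: _, hl, _, _ => simp at hl; omega

theorem main : G.edgeSet.Nonempty ∧ ∀ e ∈ G.edgeSet,
    sInf {k : ℕ | ∃ S : Finset (Fin 25), Maximal (Irr (G.deleteEdges {e})) S ∧ S.card = k} <
    sInf {k : ℕ | ∃ S : Finset (Fin 25), Maximal (Irr G) S ∧ S.card = k} := by
  refine ⟨⟨s(0, 8), by rw [SimpleGraph.mem_edgeSet]; exact ⟨by decide, by decide +kernel⟩⟩, ?_⟩
  intro e he
  have hup : ∃ S : Finset (Fin 25), Maximal (Irr (G.deleteEdges {e})) S ∧ S.card ≤ 4 := by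
    induction e using Sym2.ind with
    | _ a b =>
      rw [SimpleGraph.mem_edgeSet] at he
      rcases lt_or_gt_of_ne he.1 with h | h
      · exact upper a b he h
      · rw [Sym2.eq_swap]; exact upper b a he.symm h
  obtain ⟨S, hS, hc⟩ := hup
  have h1 : sInf {k : ℕ | ∃ S : Finset (Fin 25), Maximal (Irr (G.deleteEdges {e})) S ∧ S.card = k}
      ≤ S.card := Nat.sInf_le ⟨S, hS, rfl⟩
  have hne : {k : ℕ | ∃ S : Finset (Fin 25), Maximal (Irr G) S ∧ S.card = k}.Nonempty := by
    obtain ⟨T, -, hT⟩ := Finite.exists_le_maximal (p := Irr G) (a := ∅) (by intro v hv; simp at hv)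
    exact ⟨_, T, hT, rfl⟩
  obtain ⟨T, hT, hk⟩ := Nat.sInf_mem hne
  have := lower T hT
  omega

end Pool.Agent.H.MP_3e8e5c_co
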